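import Pool.Agent.Lib.WR.Mo
import Pool.Agent.Lib.MP_72e2e6_nt.PeAll

/-! THEOREM WR without hypotheses. -/

namespace Pool.Agent.Lib.WR

open Polynomial MP72e2e6

/-- THEOREM WR. Weil's bound for the rational functions `b z + ∑_(a ∈ s) c_a / (z - a)` over `ZMod p`: if `b` or
some `c_a` is not zero, the exponential sum over the `z ∉ s` is at most `2 |s| √p`. -/
theorem wr (p : ℕ) [hp : Fact p.Prime] (s : Finset (ZMod p)) (c : ZMod p → ZMod p) (b : ZMod p)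
    (h : b ≠ 0 ∨ ∃ a ∈ s, c a ≠ 0) :
    ‖∑ z ∈ Finset.univ \ s, (ZMod.stdAddChar (b * z + ∑ a ∈ s, c a / (z - a)) : ℂ)‖ ≤
      2 * s.card * Real.sqrt p := by
  have hMon : StmtTwMon.{0} := tTwMon
  have hPsi : StmtSuPsi.{0} := tSuPsi hMon (tTwPsi hMon) tSuMon
  exact tWR hPsi p s c b h

end Pool.Agent.Lib.WR
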