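import Pool.Agent.Lib.WR.Ch

/-! The sums over the monic polynomials of given degree. -/

namespace Pool.Agent.Lib.WR

open Polynomial MP72e2e6

theorem avC_zero (p : ℕ) [Fact p.Prime] (s : Finset (ZMod p)) (c : ZMod p → ZMod p) (b : ZMod p) :
    avC (ph p s c b) 0 = 1 := by
  have h1 : mon (ZMod p) 0 = {1} := by
    ext h
    rw [mem_mon, Finset.mem_singleton]
    constructor
    · rintro ⟨h1, h2⟩
      exact (Monic.natDegree_eq_zero h1).1 h2
    · rintro rfl
      exact ⟨monic_one, natDegree_one⟩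
  rw [avC, h1, Finset.sum_singleton, (tCh p s c b).one]

theorem avC_one (p : ℕ) [Fact p.Prime] (s : Finset (ZMod p)) (c : ZMod p → ZMod p) (b : ZMod p) :
    avC (ph p s c b) 1 = ∑ z ∈ Finset.univ \ s, ZMod.stdAddChar (b * z + ∑ a ∈ s, c a / (z - a)) := by
  classical
  have h1 : avC (ph p s c b) 1 = ∑ z : ZMod p, ph p s c b (X - C z) := by
    rw [avC]
    symm
    refine Finset.sum_nbij' (fun z => X - C z) (fun h => -h.coeff 0) ?_ ?_ ?_ ?_ ?_
    · intro z _
      rw [mem_mon]
      exact ⟨monic_X_sub_C z, natDegree_X_sub_C z⟩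
    · intro h _
      exact Finset.mem_univ _
    · intro z _
      simp
    · intro h hh
      rw [mem_mon] at hh
      have h2 := hh.1.eq_X_add_C hh.2
      conv_rhs => rw [h2]
      simp
    · intro z _
      rfl
  rw [h1, ← Finset.sum_sdiff (Finset.subset_univ s)]
  have h2 : ∑ z ∈ s, ph p s c b (X - C z) = 0 := by
    refine Finset.sum_eq_zero fun z hz => ?_
    rw [ph, if_pos ⟨z, hz, by simp⟩]
  rw [h2, add_zero]
  refine Finset.sum_congr rfl fun z hz => ?_
  have hzs : z ∉ s := (Finset.mem_sdiff.1 hz).2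
  have h3 : ¬ ∃ a ∈ s, (X - C z).eval a = 0 := by
    rintro ⟨a, ha, ha0⟩
    rw [eval_sub, eval_X, eval_C, sub_eq_zero] at ha0
    exact hzs (ha0 ▸ ha)
  rw [ph, if_neg h3, nextCoeff_X_sub_C]
  congr 1
  have h4 : ∑ a ∈ s, c a * ((derivative (X - C z)).eval a / (X - C z).eval a) =
      -∑ a ∈ s, c a / (z - a) := by
    rw [← Finset.sum_neg_distrib]
    refine Finset.sum_congr rfl fun a ha => ?_
    rw [derivative_X_sub_C, eval_one, eval_sub, eval_X, eval_C, one_div, div_eq_mul_inv, ← mul_neg,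
      ← inv_neg, neg_sub]
  rw [h4]
  ring

theorem avC_large (p : ℕ) [Fact p.Prime] (s : Finset (ZMod p)) (c : ZMod p → ZMod p) (b : ZMod p)
    (hb : b ≠ 0) (n : ℕ) (hn : 2 * s.card + 1 ≤ n) : avC (ph p s c b) n = 0 := by
  classical
  let W : (ZMod p)[X] := (∏ a ∈ s, (X - C a)) ^ 2 * X ^ (n - 1 - 2 * s.card)
  have hPm : (∏ a ∈ s, (X - C a)).Monic := monic_prod_of_monic _ _ fun a _ => monic_X_sub_C a
  have hPd : (∏ a ∈ s, (X - C a)).natDegree = s.card := by
    rw [natDegree_prod_of_monic _ _ fun a _ => monic_X_sub_C a]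
    simp
  have hWm : W.Monic := (hPm.pow 2).mul (monic_X_pow _)
  have hWd : W.natDegree = n - 1 := by
    rw [(hPm.pow 2).natDegree_mul (monic_X_pow _), hPm.natDegree_pow, hPd, natDegree_X_pow]
    omega
  have hW0 : ∀ a ∈ s, W.eval a = 0 := by
    intro a ha
    rw [eval_mul, eval_pow, eval_prod, Finset.prod_eq_zero ha (by simp)]
    simp
  have hW1 : ∀ a ∈ s, (derivative W).eval a = 0 := by
    intro a ha
    have h0 : (∏ a ∈ s, (X - C a)).eval a = 0 := by
      rw [eval_prod]
      exact Finset.prod_eq_zero ha (by simp)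
    rw [derivative_mul, derivative_pow, eval_add, eval_mul, eval_mul, eval_mul, eval_mul, eval_pow,
      eval_pow, h0]
    simp [h0]
  have key : ∀ (u : ZMod p) (h : (ZMod p)[X]), h ∈ mon (ZMod p) n →
      h + C u * W ∈ mon (ZMod p) n ∧
      ph p s c b (h + C u * W) = ZMod.stdAddChar (-(b * u)) * ph p s c b h := by
    intro u h hh
    rw [mem_mon] at hh
    obtain ⟨hm, hd⟩ := hh
    have hlt : (C u * W).natDegree < h.natDegree := by
      rw [hd]
      exact lt_of_le_of_lt (natDegree_C_mul_le u W) (by omega)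
    have hdl : (C u * W).degree < h.degree := degree_lt_degree hlt
    have hd' : (h + C u * W).natDegree = n := by
      rw [natDegree_add_eq_left_of_natDegree_lt hlt, hd]
    have e0 : ∀ a ∈ s, (h + C u * W).eval a = h.eval a := by
      intro a ha
      rw [eval_add, eval_mul, hW0 a ha, mul_zero, add_zero]
    have e1 : ∀ a ∈ s, (derivative (h + C u * W)).eval a = (derivative h).eval a := by
      intro a ha
      rw [derivative_add, derivative_C_mul, eval_add, eval_mul, hW1 a ha, mul_zero, add_zero]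
    have e2 : (h + C u * W).nextCoeff = h.nextCoeff + u := by
      rw [nextCoeff_of_natDegree_pos (by omega), nextCoeff_of_natDegree_pos (by omega), hd', hd,
        coeff_add, coeff_C_mul]
      have h5 : W.coeff (n - 1) = 1 := by
        rw [← hWd]
        exact hWm.coeff_natDegree
      rw [h5, mul_one]
    refine ⟨mem_mon.2 ⟨hm.add_of_left hdl, hd'⟩, ?_⟩
    have h6 : (∃ a ∈ s, (h + C u * W).eval a = 0) ↔ ∃ a ∈ s, h.eval a = 0 := by
      constructor
      · rintro ⟨a, ha, ha0⟩
        exact ⟨a, ha, by rw [← e0 a ha, ha0]⟩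
      · rintro ⟨a, ha, ha0⟩
        exact ⟨a, ha, by rw [e0 a ha, ha0]⟩
    unfold ph
    by_cases h0 : ∃ a ∈ s, h.eval a = 0
    · rw [if_pos (h6.2 h0), if_pos h0, mul_zero]
    · rw [if_neg fun h => h0 (h6.1 h), if_neg h0, ← AddChar.map_add_eq_mul]
      congr 1
      have h7 : ∑ a ∈ s, c a * ((derivative (h + C u * W)).eval a / (h + C u * W).eval a) =
          ∑ a ∈ s, c a * ((derivative h).eval a / h.eval a) :=
        Finset.sum_congr rfl fun a ha => by rw [e0 a ha, e1 a ha]
      rw [h7, e2]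
      ring
  have h1 : ∀ u : ZMod p, avC (ph p s c b) n = ZMod.stdAddChar (-(b * u)) * avC (ph p s c b) n := by
    intro u
    conv_rhs => rw [avC, Finset.mul_sum]
    rw [avC]
    symm
    refine Finset.sum_nbij' (fun h => h + C u * W) (fun h => h + C (-u) * W)
      ?_ ?_ ?_ ?_ ?_
    · intro h hh
      exact (key u h hh).1
    · intro h hh
      exact (key (-u) h hh).1
    · intro h _
      simp
    · intro h _
      simp
    · intro h hh
      exact ((key u h hh).2).symm
  have h2 := h1 (-b⁻¹)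
  have h3 : -(b * -b⁻¹) = 1 := by
    rw [mul_neg, neg_neg, mul_inv_cancel₀ hb]
  rw [h3] at h2
  have h4 : (ZMod.stdAddChar (1 : ZMod p) : ℂ) ≠ 1 := by
    intro h
    have h5 : (ZMod.stdAddChar (1 : ZMod p) : ℂ) = ZMod.stdAddChar (0 : ZMod p) := by
      rw [h, AddChar.map_zero_eq_one]
    exact one_ne_zero (ZMod.injective_stdAddChar h5)
  have h5 : (ZMod.stdAddChar (1 : ZMod p) - 1 : ℂ) * avC (ph p s c b) n = 0 := by
    rw [sub_mul, one_mul, ← h2, sub_self]
  rcases mul_eq_zero.1 h5 with h | h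
  · exact absurd (sub_eq_zero.1 h) h4
  · exact h

end Pool.Agent.Lib.WR
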