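import Pool.Agent.Lib.WR.Defs

/-! Complete multiplicativity. -/

namespace Pool.Agent.Lib.WR

open Polynomial MP72e2e6

theorem ph_mul (p : ℕ) [Fact p.Prime] (s : Finset (ZMod p)) (c : ZMod p → ZMod p) (b : ZMod p)
    (g h : (ZMod p)[X]) (hg : g.Monic) (hh : h.Monic) :
    ph p s c b (g * h) = ph p s c b g * ph p s c b h := by
  classical
  unfold ph
  by_cases h1 : ∃ a ∈ s, g.eval a = 0
  · obtain ⟨a, ha, ha0⟩ := h1
    rw [if_pos ⟨a, ha, by rw [eval_mul, ha0, zero_mul]⟩, if_pos ⟨a, ha, ha0⟩, zero_mul]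
  · by_cases h2 : ∃ a ∈ s, h.eval a = 0
    · obtain ⟨a, ha, ha0⟩ := h2
      rw [if_pos ⟨a, ha, by rw [eval_mul, ha0, mul_zero]⟩,
        if_pos (⟨a, ha, ha0⟩ : ∃ a ∈ s, h.eval a = 0), mul_zero]
    · have h3 : ¬ ∃ a ∈ s, (g * h).eval a = 0 := by
        rintro ⟨a, ha, ha0⟩
        rw [eval_mul] at ha0
        rcases mul_eq_zero.1 ha0 with h4 | h4
        · exact h1 ⟨a, ha, h4⟩
        · exact h2 ⟨a, ha, h4⟩
      rw [if_neg h1, if_neg h2, if_neg h3, ← AddChar.map_add_eq_mul]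
      congr 1
      have h5 : ∑ a ∈ s, c a * ((derivative (g * h)).eval a / (g * h).eval a) =
          ∑ a ∈ s, c a * ((derivative g).eval a / g.eval a) +
            ∑ a ∈ s, c a * ((derivative h).eval a / h.eval a) := by
        rw [← Finset.sum_add_distrib]
        refine Finset.sum_congr rfl fun a ha => ?_
        have hg0 : g.eval a ≠ 0 := fun h => h1 ⟨a, ha, h⟩
        have hh0 : h.eval a ≠ 0 := fun h => h2 ⟨a, ha, h⟩
        rw [derivative_mul, eval_add, eval_mul, eval_mul, eval_mul]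
        field_simp
      rw [hg.nextCoeff_mul hh, h5]
      ring

theorem tCh (p : ℕ) [Fact p.Prime] (s : Finset (ZMod p)) (c : ZMod p → ZMod p) (b : ZMod p) :
    IsChL p (ph p s c b) := by
  classical
  refine ⟨?_, fun g h hg hh => ph_mul p s c b g h hg hh, ?_⟩
  · unfold ph
    have h3 : (1 : (ZMod p)[X]).nextCoeff = 0 := by
      rw [← C_1]
      exact nextCoeff_C_eq_zero 1
    rw [if_neg (by simp), h3]
    simp
  · intro h
    unfold ph
    by_cases h0 : ∃ a ∈ s, h.eval a = 0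
    · left
      rw [if_pos h0]
    · right
      rw [if_neg h0, ← AddChar.map_nsmul_eq_pow, nsmul_eq_mul, ZMod.natCast_self, zero_mul,
        AddChar.map_zero_eq_one]

end Pool.Agent.Lib.WR
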