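import Mathlib

/-! The method of Stepanov for `Tr (u / V) = a` over the extension of degree `2 m` of `ZMod p`. -/

namespace Pool.Agent.Lib.WR

open Polynomial Finset

private theorem St_lin {F : Type} [Field F] (N D : ℕ) (hND : D < N) (B : ℕ → F[X])
    (hB : ∀ n, n < N → (B n).natDegree < D) :
    ∃ ρ : ℕ → F, (∃ n, n < N ∧ ρ n ≠ 0) ∧ ∑ n ∈ range N, C (ρ n) * B n = 0 := by
  let M : Matrix (Fin D) (Fin N) F := fun d n => (B n).coeff d
  have h1 : LinearMap.ker M.mulVecLin ≠ ⊥ := by
    apply LinearMap.ker_ne_bot_of_finrank_lt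
    rw [Module.finrank_fin_fun, Module.finrank_fin_fun]
    exact hND
  obtain ⟨v, hv, hv0⟩ := (Submodule.ne_bot_iff _).1 h1
  rw [LinearMap.mem_ker, Matrix.mulVecLin_apply] at hv
  obtain ⟨w, hw⟩ : ∃ w : ℕ → F, ∀ n : Fin N, w n = v n :=
    ⟨fun n => if h : n < N then v ⟨n, h⟩ else 0, fun n => dif_pos n.2⟩
  refine ⟨w, ?_, ?_⟩
  · obtain ⟨n, hn⟩ := Function.ne_iff.1 hv0
    refine ⟨n, n.2, ?_⟩
    rw [hw n]
    exact hn
  · ext d
    rw [finsetSum_coeff, coeff_zero]
    by_cases hd : d < D
    · have h2 := congrFun hv ⟨d, hd⟩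
      rw [Matrix.mulVec, dotProduct, Pi.zero_apply] at h2
      refine Eq.trans ?_ h2
      rw [← Fin.sum_univ_eq_sum_range (fun n => (C (w n) * B n).coeff d) N]
      refine Finset.sum_congr rfl fun n _ => ?_
      rw [coeff_C_mul, hw n, mul_comm]
    · refine Finset.sum_eq_zero fun n hn => ?_
      rw [mem_range] at hn
      rw [coeff_C_mul, coeff_eq_zero_of_natDegree_lt (lt_of_lt_of_le (hB n hn) (not_lt.1 hd)), mul_zero]

private theorem St_ne {F : Type} [Field F] (N c : ℕ) (A : ℕ → F[X]) (hA : ∀ n, n < N → A n ≠ 0)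
    (hd : ∀ n, n < N → (A n).natDegree = c + n) (ρ : ℕ → F) (hρ : ∃ n, n < N ∧ ρ n ≠ 0) :
    ∑ n ∈ range N, C (ρ n) * A n ≠ 0 := by
  classical
  let T := (range N).filter fun n => ρ n ≠ 0
  have hT : T.Nonempty := by
    obtain ⟨n, h1, h2⟩ := hρ
    exact ⟨n, mem_filter.2 ⟨mem_range.2 h1, h2⟩⟩
  obtain ⟨h1, h2⟩ := mem_filter.1 (T.max'_mem hT)
  rw [mem_range] at h1
  intro h0
  have h3 := congrArg (fun P : F[X] => P.coeff (c + T.max' hT)) h0
  simp only [coeff_zero] at h3
  rw [finsetSum_coeff, Finset.sum_eq_single (T.max' hT)] at h3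
  · rw [coeff_C_mul] at h3
    rcases mul_eq_zero.1 h3 with h4 | h4
    · exact h2 h4
    · rw [← hd _ h1, coeff_natDegree, leadingCoeff_eq_zero] at h4
      exact hA _ h1 h4
  · intro n hn hne
    rw [mem_range] at hn
    rw [coeff_C_mul]
    by_cases h5 : ρ n = 0
    · rw [h5, zero_mul]
    · have h6 : n ≤ T.max' hT := T.le_max' n (mem_filter.2 ⟨mem_range.2 hn, h5⟩)
      rw [coeff_eq_zero_of_natDegree_lt (by rw [hd n hn]; omega), mul_zero]
  · intro h
    exact absurd (mem_range.2 h1) h

theorem tSt (p : ℕ) [hp : Fact p.Prime] (K : Type) [Field K] [Fintype K] [DecidableEq K]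
    [Algebra (ZMod p) K] (m : ℕ) (hm : 1 ≤ m) (hK : Module.finrank (ZMod p) K = 2 * m)
    (u V : (ZMod p)[X]) (hV : V.Monic) (hu : u.natDegree = V.natDegree + 1)
    (hs : V.natDegree + 3 ≤ p ^ m) (a : ZMod p) :
    (univ.filter fun x : K => aeval x V ≠ 0 ∧
      Algebra.trace (ZMod p) K (aeval x u / aeval x V) = a).card ≤
      p ^ m * (p ^ (m - 1) + 2 * V.natDegree + 3) := by
  classical
  have : CharP K p := charP_of_injective_algebraMap (algebraMap (ZMod p) K).injective p
  have : ExpChar K p := ExpChar.prime hp.out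
  set v := V.natDegree with hv
  set M := p ^ (m - 1) with hM
  have hp2 : 2 ≤ p := hp.out.two_le
  have hMpos : 0 < M := pow_pos (by omega) _
  have hsM : p ^ m = p * M := by
    rw [hM, ← pow_succ']
    congr 1
    omega
  set s := p ^ m with hsdef
  have hspos : 0 < s := pow_pos (by omega) _
  have hcard : Fintype.card K = s * s := by
    rw [← Nat.card_eq_fintype_card, Module.natCard_eq_pow_finrank (K := ZMod p), hK, Nat.card_eq_fintype_card,
      ZMod.card, two_mul, pow_add]
  -- the numerator of the half trace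
  let H : (ZMod p)[X] := ∑ i ∈ range m, u ^ p ^ i * V ^ (M - p ^ i)
  have hu0 : u ≠ 0 := by
    intro h
    rw [h, natDegree_zero] at hu
    omega
  have hHd : H.natDegree = (v + 1) * M := by
    obtain ⟨m', rfl⟩ : ∃ m', m = m' + 1 := ⟨m - 1, by omega⟩
    change (∑ i ∈ range (m' + 1), u ^ p ^ i * V ^ (M - p ^ i)).natDegree = _
    rw [Finset.sum_range_succ]
    have e1 : M = p ^ m' := by rw [hM, Nat.add_sub_cancel]
    rw [← e1, Nat.sub_self, pow_zero, mul_one]
    have h1 : (u ^ M).natDegree = (v + 1) * M := by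
      rw [natDegree_pow, hu]
      ring
    have h2 : (∑ i ∈ range m', u ^ p ^ i * V ^ (M - p ^ i)).natDegree ≤ v * M + (M - 1) := by
      refine natDegree_sum_le_of_forall_le _ _ fun i hi => ?_
      rw [mem_range] at hi
      have h3 : p ^ i < M := by
        rw [e1]
        exact Nat.pow_lt_pow_right (by omega) hi
      have h4 : (u ^ p ^ i * V ^ (M - p ^ i)).natDegree ≤ p ^ i * (v + 1) + (M - p ^ i) * v := by
        refine natDegree_mul_le.trans (Nat.add_le_add ?_ ?_)
        · rw [natDegree_pow, hu]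
        · rw [natDegree_pow]
      refine h4.trans ?_
      obtain ⟨d, hd⟩ : ∃ d, M = p ^ i + d + 1 := ⟨M - p ^ i - 1, by omega⟩
      have h5 : M - p ^ i = d + 1 := by omega
      rw [h5, hd]
      have h6 : p ^ i + d + 1 - 1 = p ^ i + d := by omega
      rw [h6]
      nlinarith
    have h7 : v * M + (M - 1) < (v + 1) * M := by
      have : (v + 1) * M = v * M + M := by ring
      omega
    rw [natDegree_add_eq_right_of_natDegree_lt (by rw [h1]; omega), h1]
  have hH0 : H ≠ 0 := by
    intro h
    rw [h, natDegree_zero] at hHd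
    have : 0 < (v + 1) * M := Nat.mul_pos (Nat.succ_pos v) hMpos
    omega
  set J := M + v + 3 with hJ
  let A : ℕ → (ZMod p)[X] := fun n => X ^ (n % M + s * (n / (M * p))) *
    (V ^ (M * (p - 1 - n / M % p)) * H ^ (n / M % p))
  let B : ℕ → (ZMod p)[X] := fun n => X ^ (s * (n % M) + n / (M * p)) *
    (V ^ (M * (p - 1 - n / M % p)) * (C a * V ^ M - H) ^ (n / M % p))
  have hidx : ∀ n, n % M + s * (n / (M * p)) + (M * (p - 1 - n / M % p) * v +
      (n / M % p) * ((v + 1) * M)) = M * v * (p - 1) + n := by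
    intro n
    have h1 : n % M + M * (n / M) = n := Nat.mod_add_div n M
    have h2 : n / M % p + p * (n / M / p) = n / M := Nat.mod_add_div (n / M) p
    have h3 : n / M / p = n / (M * p) := Nat.div_div_eq_div_mul n M p
    have h4 : n / M % p < p := Nat.mod_lt _ (by omega)
    rw [h3] at h2
    obtain ⟨w, hw⟩ : ∃ w, p - 1 = n / M % p + w := ⟨p - 1 - n / M % p, by omega⟩
    have h5 : p - 1 - n / M % p = w := by omega
    rw [h5, hw, hsM]
    have key : ∀ k i j w : ℕ, k + (p * M) * j + (M * w * v + i * ((v + 1) * M)) =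
        M * v * (i + w) + (k + M * (i + p * j)) := by
      intro k i j w
      ring
    refine (key _ _ _ _).trans ?_
    rw [h2, h1]
  have hAd : ∀ n, (A n).natDegree = M * v * (p - 1) + n := by
    intro n
    change (X ^ (n % M + s * (n / (M * p))) *
      (V ^ (M * (p - 1 - n / M % p)) * H ^ (n / M % p))).natDegree = _
    rw [natDegree_mul (pow_ne_zero _ X_ne_zero) (mul_ne_zero (pow_ne_zero _ hV.ne_zero) (pow_ne_zero _ hH0)),
      natDegree_mul (pow_ne_zero _ hV.ne_zero) (pow_ne_zero _ hH0), natDegree_pow, natDegree_pow,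
      natDegree_pow, natDegree_X, mul_one, hHd]
    exact hidx n
  have hA0 : ∀ n, A n ≠ 0 := fun n => mul_ne_zero (pow_ne_zero _ X_ne_zero)
    (mul_ne_zero (pow_ne_zero _ hV.ne_zero) (pow_ne_zero _ hH0))
  have hBd : ∀ n, n < s * J → (B n).natDegree < s * M + J + s * (v + 1) := by
    intro n hn
    have h1 : (C a * V ^ M - H).natDegree ≤ (v + 1) * M := by
      refine (natDegree_sub_le _ _).trans (max_le ?_ hHd.le)
      refine (natDegree_C_mul_le _ _).trans ?_
      rw [natDegree_pow]
      nlinarith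
    have h2 : (B n).natDegree ≤ s * (n % M) + n / (M * p) + (M * (p - 1 - n / M % p) * v +
        (n / M % p) * ((v + 1) * M)) := by
      change (X ^ (s * (n % M) + n / (M * p)) *
        (V ^ (M * (p - 1 - n / M % p)) * (C a * V ^ M - H) ^ (n / M % p))).natDegree ≤ _
      refine natDegree_mul_le.trans (Nat.add_le_add ?_ (natDegree_mul_le.trans (Nat.add_le_add ?_ ?_)))
      · rw [natDegree_pow, natDegree_X, mul_one]
      · rw [natDegree_pow]
      · exact natDegree_pow_le.trans (Nat.mul_le_mul_left _ h1)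
    refine lt_of_le_of_lt h2 ?_
    have h3 : n % M < M := Nat.mod_lt _ hMpos
    have h4 : n / (M * p) < J := by
      rw [Nat.div_lt_iff_lt_mul (by positivity)]
      rw [hsM] at hn
      calc n < p * M * J := hn
        _ = J * (M * p) := by ring
    have h5 : n / M % p < p := Nat.mod_lt _ (by omega)
    have h6 : s * (n % M) + s ≤ s * M := by
      calc s * (n % M) + s = s * (n % M + 1) := by ring
        _ ≤ s * M := Nat.mul_le_mul_left _ h3
    have h7 : M * (p - 1 - n / M % p) * v + (n / M % p) * ((v + 1) * M) ≤ s * (v + 1) := by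
      obtain ⟨w, hw⟩ : ∃ w, p = n / M % p + w + 1 := ⟨p - 1 - n / M % p, by omega⟩
      have h8 : p - 1 - n / M % p = w := by omega
      rw [h8, hsM]
      generalize n / M % p = i at hw ⊢
      rw [hw]
      nlinarith [Nat.zero_le (w * M), Nat.zero_le (M * (v + 1)), Nat.zero_le (w * M * v)]
    omega
  obtain ⟨ρ, hρ, hT⟩ := St_lin (s * J) (s * M + J + s * (v + 1)) (by
    have h1 : 2 * M ≤ s := by
      rw [hsM]
      exact Nat.mul_le_mul_right _ hp2
    have h2 : s * J = s * M + s * (v + 1) + 2 * s := by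
      rw [hJ]
      ring
    omega) B hBd
  set R := ∑ n ∈ range (s * J), C (ρ n) * A n with hR
  have hR0 : R ≠ 0 := St_ne (s * J) (M * v * (p - 1)) A (fun n _ => hA0 n) (fun n _ => hAd n) ρ hρ
  have hRd : R.natDegree ≤ s * (M + 2 * v + 3) := by
    refine natDegree_sum_le_of_forall_le _ _ fun n hn => ?_
    rw [mem_range] at hn
    refine (natDegree_C_mul_le _ _).trans ?_
    rw [hAd n]
    have h1 : M * v * (p - 1) ≤ s * v := by
      rw [hsM]
      calc M * v * (p - 1) ≤ M * v * p := Nat.mul_le_mul_left _ (by omega)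
        _ = p * M * v := by ring
    have h2 : s * (M + 2 * v + 3) = s * v + s * J := by
      rw [hJ]
      ring
    omega
  -- the roots
  have hroot : ∀ x : K, aeval x V ≠ 0 → Algebra.trace (ZMod p) K (aeval x u / aeval x V) = a →
      aeval x R = 0 := by
    intro x hx hxa
    set vx := aeval x V with hvx
    set ux := aeval x u with hux
    set fx := ux / vx with hfx
    have hufx : ux = fx * vx := by
      rw [hfx, div_mul_cancel₀ _ hx]
    let hh : K := ∑ i ∈ range m, fx ^ p ^ i
    have hHx : aeval x H = vx ^ M * hh := by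
      change aeval x (∑ i ∈ range m, u ^ p ^ i * V ^ (M - p ^ i)) = _
      rw [map_sum, Finset.mul_sum]
      refine Finset.sum_congr rfl fun i hi => ?_
      rw [mem_range] at hi
      have h3 : p ^ i ≤ M := Nat.pow_le_pow_right (by omega) (by omega)
      rw [map_mul, map_pow, map_pow, ← hux, ← hvx]
      conv_rhs => rw [← Nat.sub_add_cancel h3, pow_add]
      rw [hufx, mul_pow]
      ring
    have hhs : hh ^ s = algebraMap (ZMod p) K a - hh := by
      have h1 : hh ^ s = ∑ i ∈ range m, fx ^ p ^ (m + i) := by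
        change (∑ i ∈ range m, fx ^ p ^ i) ^ p ^ m = _
        rw [sum_pow_char_pow p]
        refine Finset.sum_congr rfl fun i _ => ?_
        rw [← pow_mul, ← pow_add, add_comm i m]
      have h2 : algebraMap (ZMod p) K a = ∑ i ∈ range (m + m), fx ^ p ^ i := by
        rw [← hxa, FiniteField.algebraMap_trace_eq_sum_pow, hK, two_mul]
        refine Finset.sum_congr rfl fun i _ => ?_
        rw [Nat.card_eq_fintype_card, ZMod.card]
      rw [Finset.sum_range_add] at h2
      rw [h1, h2]
      exact (add_sub_cancel_left _ _).symm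
    have hHs : (aeval x H) ^ s = vx ^ ((s - 1) * M) * (algebraMap (ZMod p) K a * vx ^ M - aeval x H) := by
      rw [hHx, mul_pow, hhs]
      obtain ⟨s', hs'⟩ : ∃ s', s = s' + 1 := ⟨s - 1, by omega⟩
      have h1 : s - 1 = s' := by omega
      rw [h1, ← pow_mul, hs']
      ring
    have hAs : ∀ n, (aeval x (A n)) ^ s = vx ^ ((s - 1) * (M * (p - 1))) * aeval x (B n) := by
      intro n
      change (aeval x (X ^ (n % M + s * (n / (M * p))) *
        (V ^ (M * (p - 1 - n / M % p)) * H ^ (n / M % p)))) ^ s = _ * aeval x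
        (X ^ (s * (n % M) + n / (M * p)) *
        (V ^ (M * (p - 1 - n / M % p)) * (C a * V ^ M - H) ^ (n / M % p)))
      simp only [map_mul, map_pow, map_sub, aeval_X, aeval_C, ← hvx]
      have h4 : n / M % p < p := Nat.mod_lt _ (by omega)
      obtain ⟨w, hw⟩ : ∃ w, p - 1 = n / M % p + w := ⟨p - 1 - n / M % p, by omega⟩
      have h5 : p - 1 - n / M % p = w := by omega
      rw [h5, hw]
      generalize n / M % p = i
      generalize n / (M * p) = j
      generalize n % M = k
      have h6 : (x ^ (k + s * j)) ^ s = x ^ (s * k + j) := by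
        have h7 : x ^ (s * s) = x := by
          rw [← hcard]
          exact FiniteField.pow_card x
        calc (x ^ (k + s * j)) ^ s = x ^ (s * k) * (x ^ (s * s)) ^ j := by
              rw [← pow_mul, ← pow_mul, ← pow_add]
              congr 1
              ring
          _ = x ^ (s * k + j) := by rw [h7, pow_add]
      have h8 : ((aeval x H) ^ i) ^ s = vx ^ ((s - 1) * M * i) *
          (algebraMap (ZMod p) K a * vx ^ M - aeval x H) ^ i := by
        rw [← pow_mul, mul_comm i s, pow_mul, hHs, mul_pow, ← pow_mul]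
      rw [mul_pow, mul_pow, h6, h8]
      obtain ⟨s', hs'⟩ : ∃ s', s = s' + 1 := ⟨s - 1, by omega⟩
      have h1 : s - 1 = s' := by omega
      rw [h1, hs']
      have h9 : (vx ^ (M * w)) ^ (s' + 1) * vx ^ (s' * M * i) =
          vx ^ (s' * (M * (i + w))) * vx ^ (M * w) := by
        rw [← pow_mul, ← pow_add, ← pow_add]
        congr 1
        ring
      linear_combination (x ^ ((s' + 1) * k + j) *
        (algebraMap (ZMod p) K a * vx ^ M - aeval x H) ^ i) * h9
    have h1 : (aeval x R) ^ s = 0 := by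
      rw [hR, map_sum]
      change (∑ n ∈ range (s * J), aeval x (C (ρ n) * A n)) ^ p ^ m = 0
      rw [sum_pow_char_pow p]
      have h2 : ∀ n ∈ range (s * J), (aeval x (C (ρ n) * A n)) ^ p ^ m =
          vx ^ ((s - 1) * (M * (p - 1))) * aeval x (C (ρ n) * B n) := by
        intro n _
        have e1 : aeval x (C (ρ n) * A n) = algebraMap (ZMod p) K (ρ n) * aeval x (A n) := by
          rw [map_mul (aeval x) (C (ρ n)) (A n), aeval_C]
        have e2 : aeval x (C (ρ n) * B n) = algebraMap (ZMod p) K (ρ n) * aeval x (B n) := by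
          rw [map_mul (aeval x) (C (ρ n)) (B n), aeval_C]
        have e3 : (algebraMap (ZMod p) K (ρ n)) ^ p ^ m = algebraMap (ZMod p) K (ρ n) := by
          rw [← map_pow, ZMod.pow_card_pow]
        rw [e1, e2, mul_pow, e3, ← hsdef, hAs n]
        ring
      rw [Finset.sum_congr rfl h2, ← Finset.mul_sum, ← map_sum, hT, map_zero, mul_zero]
    exact pow_eq_zero_iff (by omega) |>.1 h1
  calc (univ.filter fun x : K => aeval x V ≠ 0 ∧
      Algebra.trace (ZMod p) K (aeval x u / aeval x V) = a).card
      ≤ (R.aroots K).toFinset.card := by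
        apply Finset.card_le_card
        intro x hx
        rw [mem_filter] at hx
        rw [Multiset.mem_toFinset, mem_aroots]
        exact ⟨hR0, hroot x hx.2.1 hx.2.2⟩
    _ ≤ Multiset.card (R.aroots K) := Multiset.toFinset_card_le _
    _ ≤ (R.map (algebraMap (ZMod p) K)).natDegree := card_roots' _
    _ = R.natDegree := natDegree_map _
    _ ≤ s * (M + 2 * v + 3) := hRd

end Pool.Agent.Lib.WR
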