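import Pool.Agent.Lib.WR.Defs
import Pool.Agent.Lib.WR.St

/-! The bound for the sum over the multiples of the rational function, even degree. -/

namespace Pool.Agent.Lib.WR

open Polynomial MP72e2e6

/-- the denominator -/
noncomputable def Vp (p : ℕ) [Fact p.Prime] (s : Finset (ZMod p)) : (ZMod p)[X] := ∏ a ∈ s, (X - C a)

/-- the numerator -/
noncomputable def Up (p : ℕ) [Fact p.Prime] (s : Finset (ZMod p)) (c : ZMod p → ZMod p) (b : ZMod p) :
    (ZMod p)[X] := C b * X * Vp p s + ∑ a ∈ s, C (c a) * ∏ a' ∈ s.erase a, (X - C a')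

theorem Vp_monic (p : ℕ) [Fact p.Prime] (s : Finset (ZMod p)) : (Vp p s).Monic :=
  monic_prod_of_monic _ _ fun a _ => monic_X_sub_C a

theorem Vp_natDegree (p : ℕ) [Fact p.Prime] (s : Finset (ZMod p)) : (Vp p s).natDegree = s.card := by
  rw [Vp, natDegree_prod_of_monic _ _ fun a _ => monic_X_sub_C a]
  simp

theorem Up_natDegree (p : ℕ) [Fact p.Prime] (s : Finset (ZMod p)) (c : ZMod p → ZMod p) (b : ZMod p)
    (hb : b ≠ 0) : (Up p s c b).natDegree = s.card + 1 := by
  classical
  have h1 : (C b * X * Vp p s).natDegree = s.card + 1 := by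
    rw [mul_assoc, natDegree_C_mul hb, natDegree_mul X_ne_zero (Vp_monic p s).ne_zero, natDegree_X,
      Vp_natDegree, add_comm]
  have h2 : (∑ a ∈ s, C (c a) * ∏ a' ∈ s.erase a, (X - C a')).natDegree ≤ s.card := by
    refine natDegree_sum_le_of_forall_le _ _ fun a _ => ?_
    refine (natDegree_C_mul_le _ _).trans ?_
    rw [natDegree_prod_of_monic _ _ fun a _ => monic_X_sub_C a]
    simp only [natDegree_X_sub_C, Finset.sum_const, smul_eq_mul, mul_one]
    exact Finset.card_le_card (Finset.erase_subset _ _)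
  rw [Up, natDegree_add_eq_left_of_natDegree_lt (by rw [h1]; omega), h1]

theorem aeval_Vp (p : ℕ) [Fact p.Prime] (K : Type) [Field K] [Algebra (ZMod p) K] (s : Finset (ZMod p))
    (x : K) : aeval x (Vp p s) = ∏ a ∈ s, (x - algebraMap (ZMod p) K a) := by
  rw [Vp, map_prod]
  refine Finset.prod_congr rfl fun a _ => ?_
  rw [map_sub, aeval_X, aeval_C]

theorem aeval_Vp_ne (p : ℕ) [Fact p.Prime] (K : Type) [Field K] [Algebra (ZMod p) K] (s : Finset (ZMod p))
    (x : K) : aeval x (Vp p s) ≠ 0 ↔ ∀ a ∈ s, x ≠ algebraMap (ZMod p) K a := by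
  rw [aeval_Vp, Finset.prod_ne_zero_iff]
  exact forall_congr' fun a => forall_congr' fun _ => sub_ne_zero

theorem aeval_UV (p : ℕ) [Fact p.Prime] (K : Type) [Field K] [Algebra (ZMod p) K] (s : Finset (ZMod p))
    (c : ZMod p → ZMod p) (b : ZMod p) (x : K) (hx : ∀ a ∈ s, x ≠ algebraMap (ZMod p) K a) :
    aeval x (Up p s c b) / aeval x (Vp p s) = fr p K s c b x := by
  classical
  have h0 := (aeval_Vp_ne p K s x).2 hx
  rw [div_eq_iff h0, Up, fr, map_add, map_mul, map_mul, aeval_C, aeval_X, map_sum, add_mul, Finset.sum_mul]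
  congr 1
  refine Finset.sum_congr rfl fun a ha => ?_
  have h1 : x - algebraMap (ZMod p) K a ≠ 0 := sub_ne_zero.2 (hx a ha)
  rw [map_mul, aeval_C, aeval_Vp, ← Finset.mul_prod_erase s _ ha, map_prod]
  have h2 : ∏ a' ∈ s.erase a, aeval x (X - C a') = ∏ a' ∈ s.erase a, (x - algebraMap (ZMod p) K a') := by
    refine Finset.prod_congr rfl fun a' _ => ?_
    rw [map_sub, aeval_X, aeval_C]
  rw [h2]
  field_simp

theorem pt_card (p : ℕ) [Fact p.Prime] (K : Type) [Field K] [Fintype K] [Algebra (ZMod p) K]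
    (s : Finset (ZMod p)) : (pt p K s).card + s.card = Fintype.card K := by
  classical
  have h1 : pt p K s = Finset.univ \ s.image (algebraMap (ZMod p) K) := by
    ext x
    rw [pt, Finset.mem_filter, Finset.mem_sdiff, Finset.mem_image]
    constructor
    · rintro ⟨h1, h2⟩
      refine ⟨h1, ?_⟩
      rintro ⟨a, ha, rfl⟩
      exact h2 a ha rfl
    · rintro ⟨h1, h2⟩
      exact ⟨h1, fun a ha h => h2 ⟨a, ha, h.symm⟩⟩
  rw [h1, ← Finset.card_image_of_injective s (algebraMap (ZMod p) K).injective,
    Finset.card_sdiff_add_card_eq_card (Finset.subset_univ _), Finset.card_univ]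

theorem tCt (p : ℕ) [hp : Fact p.Prime] (K : Type) [Field K] [Fintype K] [Algebra (ZMod p) K] (m : ℕ)
    (hm : 1 ≤ m) (hK : Module.finrank (ZMod p) K = 2 * m) (s : Finset (ZMod p)) (c : ZMod p → ZMod p)
    (b : ZMod p) (hb : b ≠ 0) (hs : s.card + 3 ≤ p ^ m) :
    ‖∑ lam ∈ (Finset.univ : Finset (ZMod p)).erase 0, kw p K s (fun a => lam * c a) (lam * b)‖ ≤
      ((p ^ 2 * (3 * s.card + 3) : ℕ) : ℝ) * (p : ℝ) ^ m := by
  classical
  have hp2 : 2 ≤ p := hp.out.two_le
  set M := p ^ (m - 1) with hM
  have hsM : p ^ m = p * M := by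
    rw [hM, ← pow_succ']
    congr 1
    omega
  set S := p ^ m with hS
  have hcard : Fintype.card K = S * S := by
    rw [← Nat.card_eq_fintype_card, Module.natCard_eq_pow_finrank (K := ZMod p), hK, Nat.card_eq_fintype_card,
      ZMod.card, two_mul, pow_add]
  let N : ZMod p → ℕ := fun a => ((pt p K s).filter fun x =>
    Algebra.trace (ZMod p) K (fr p K s c b x) = a).card
  have hN : ∀ a, N a ≤ S * (M + 2 * s.card + 3) := by
    intro a
    have h1 := tSt p K m hm hK (Up p s c b) (Vp p s) (Vp_monic p s)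
      (by rw [Up_natDegree p s c b hb, Vp_natDegree]) (by rw [Vp_natDegree]; exact hs) a
    rw [Vp_natDegree] at h1
    refine le_trans (Finset.card_le_card ?_) h1
    intro x
    rw [Finset.mem_filter, Finset.mem_filter, pt, Finset.mem_filter, aeval_Vp_ne]
    rintro ⟨⟨h2, h3⟩, h4⟩
    exact ⟨h2, h3, by rw [aeval_UV p K s c b x h3, h4]⟩
  have hsumN : ∑ a, N a = (pt p K s).card := by
    symm
    exact Finset.card_eq_sum_card_fiberwise fun _ _ => Finset.mem_univ _
  have hfr : ∀ (lam : ZMod p) (x : K), Algebra.trace (ZMod p) K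
      (fr p K s (fun a => lam * c a) (lam * b) x) = lam * Algebra.trace (ZMod p) K (fr p K s c b x) := by
    intro lam x
    have h1 : fr p K s (fun a => lam * c a) (lam * b) x = lam • fr p K s c b x := by
      rw [Algebra.smul_def, fr, fr, mul_add, Finset.mul_sum, map_mul, mul_assoc]
      congr 1
      refine Finset.sum_congr rfl fun a _ => ?_
      rw [map_mul, mul_div_assoc]
    rw [h1, map_smul, smul_eq_mul]
  have hsum : ∑ lam ∈ (Finset.univ : Finset (ZMod p)).erase 0, kw p K s (fun a => lam * c a) (lam * b) =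
      (p : ℂ) * N 0 - (pt p K s).card := by
    have h1 : ∀ x : K, ∑ lam ∈ (Finset.univ : Finset (ZMod p)).erase 0, (ZMod.stdAddChar
        (Algebra.trace (ZMod p) K (fr p K s (fun a => lam * c a) (lam * b) x)) : ℂ) =
        (if Algebra.trace (ZMod p) K (fr p K s c b x) = 0 then (p : ℂ) else 0) - 1 := by
      intro x
      have h2 := AddChar.sum_mulShift (R := ZMod p) (R' := ℂ)
        (Algebra.trace (ZMod p) K (fr p K s c b x)) (ZMod.isPrimitive_stdAddChar p)
      rw [← Finset.add_sum_erase _ _ (Finset.mem_univ (0 : ZMod p)), zero_mul,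
        AddChar.map_zero_eq_one, ZMod.card] at h2
      simp only [hfr]
      rw [eq_sub_iff_add_eq, add_comm, h2]
      split_ifs <;> simp
    unfold kw
    rw [Finset.sum_comm, Finset.sum_congr rfl fun x _ => h1 x, Finset.sum_sub_distrib, Finset.sum_const,
      nsmul_eq_mul, mul_one, ← Finset.sum_filter, Finset.sum_const, nsmul_eq_mul]
    ring
  have hpt : (pt p K s).card + s.card = S * (p * M) := by
    rw [pt_card, hcard, hsM]
  have hS1 : 1 ≤ S := Nat.one_le_pow _ _ (by omega)
  -- upper bound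
  have hup : (p : ℝ) * N 0 - (pt p K s).card ≤ ((p ^ 2 * (3 * s.card + 3) : ℕ) : ℝ) * S := by
    have h1 : p * N 0 ≤ (pt p K s).card + p ^ 2 * (3 * s.card + 3) * S := by
      have h2 : p * N 0 ≤ p * (S * (M + 2 * s.card + 3)) := Nat.mul_le_mul_left _ (hN 0)
      have h3 : p * (S * (M + 2 * s.card + 3)) = (pt p K s).card + s.card + p * S * (2 * s.card + 3) := by
        rw [hpt]
        ring
      have h4 : s.card + p * S * (2 * s.card + 3) ≤ p ^ 2 * (3 * s.card + 3) * S := by
        have h5 : p * S * (2 * s.card + 3) ≤ p ^ 2 * S * (2 * s.card + 3) := by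
          apply Nat.mul_le_mul_right
          apply Nat.mul_le_mul_right
          nlinarith
        have h6 : s.card ≤ p ^ 2 * S * s.card := Nat.le_mul_of_pos_left _ (by positivity)
        nlinarith
      omega
    have h2 : (p : ℝ) * N 0 ≤ (pt p K s).card + ((p ^ 2 * (3 * s.card + 3) : ℕ) : ℝ) * S := by
      exact_mod_cast h1
    linarith
  -- lower bound
  have hlow : ((pt p K s).card : ℝ) - (p : ℝ) * N 0 ≤ ((p ^ 2 * (3 * s.card + 3) : ℕ) : ℝ) * S := by
    have h1 : (pt p K s).card ≤ p * N 0 + p ^ 2 * (3 * s.card + 3) * S := by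
      have h2 : (pt p K s).card = N 0 + ∑ a ∈ (Finset.univ : Finset (ZMod p)).erase 0, N a := by
        rw [← hsumN, Finset.add_sum_erase _ _ (Finset.mem_univ (0 : ZMod p))]
      have h3 : ∑ a ∈ (Finset.univ : Finset (ZMod p)).erase 0, N a ≤
          (p - 1) * (S * (M + 2 * s.card + 3)) := by
        refine (Finset.sum_le_card_nsmul _ _ _ fun a _ => hN a).trans (le_of_eq ?_)
        rw [Finset.card_erase_of_mem (Finset.mem_univ _), Finset.card_univ, ZMod.card, smul_eq_mul]
      obtain ⟨p', hp'⟩ : ∃ p', p = p' + 1 := ⟨p - 1, by omega⟩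
      have hp1 : p - 1 = p' := by omega
      rw [hp1] at h3
      -- p * card = p * N 0 + p * sum
      have h4 : p * (pt p K s).card ≤ p * N 0 + p * (p' * (S * (M + 2 * s.card + 3))) := by
        have h5 : (pt p K s).card ≤ N 0 + p' * (S * (M + 2 * s.card + 3)) := by omega
        calc p * (pt p K s).card ≤ p * (N 0 + p' * (S * (M + 2 * s.card + 3))) :=
              Nat.mul_le_mul_left _ h5
          _ = _ := by ring
      have h6 : p * (p' * (S * (M + 2 * s.card + 3))) = p' * ((pt p K s).card + s.card) +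
          p * p' * S * (2 * s.card + 3) := by
        rw [hpt]
        ring
      have h7 : p * (pt p K s).card = (pt p K s).card + p' * (pt p K s).card := by
        have h13 : ∀ y : ℕ, p * y = y + p' * y := by
          intro y
          calc p * y = (p' + 1) * y := congrArg (· * y) hp'
            _ = y + p' * y := by ring
        exact h13 _
      have h8 : p' * s.card + p * p' * S * (2 * s.card + 3) ≤ p ^ 2 * (3 * s.card + 3) * S := by
        have h9 : p' ≤ p := by omega
        have h10 : p * p' * S * (2 * s.card + 3) ≤ p * p * S * (2 * s.card + 3) := by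
          apply Nat.mul_le_mul_right
          apply Nat.mul_le_mul_right
          exact Nat.mul_le_mul_left _ h9
        have h11 : p' * s.card ≤ p ^ 2 * S * s.card := by
          apply Nat.mul_le_mul_right
          nlinarith
        nlinarith
      have h12 : p' * ((pt p K s).card + s.card) = p' * (pt p K s).card + p' * s.card := by ring
      omega
    have h2 : ((pt p K s).card : ℝ) ≤ (p : ℝ) * N 0 + ((p ^ 2 * (3 * s.card + 3) : ℕ) : ℝ) * S := by
      exact_mod_cast h1
    linarith
  rw [hsum]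
  have h1 : ((p : ℂ) * N 0 - (pt p K s).card) = (((p : ℝ) * N 0 - (pt p K s).card : ℝ) : ℂ) := by
    push_cast
    rfl
  rw [h1, Complex.norm_real, Real.norm_eq_abs]
  have h2 : ((S : ℕ) : ℝ) = (p : ℝ) ^ m := by
    rw [hS]
    push_cast
    rfl
  rw [← h2, abs_le]
  constructor
  · linarith
  · exact hup

end Pool.Agent.Lib.WR
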