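import Pool.Agent.Lib.TN.SpecW

/-!
# Weil's bound for the rational functions with simple poles: definitions (helper18)

`f = b X + ∑_{a ∈ s} c a / (X - a)` over `F = ZMod p`.

* `ph`: the completely multiplicative function on monic polynomials with `ph h = ψ(∑ f(z))`, the sum over the
  roots `z` of `h` (`0` if a root is a pole).
* `fr`: the function `f` on an extension, `kw`: the exponential sum over the extension.
-/

namespace Pool.Agent.Lib.WR

open Polynomial MP72e2e6

open Classical in
/-- The character of the monic polynomials. -/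
noncomputable def ph (p : ℕ) [Fact p.Prime] (s : Finset (ZMod p)) (c : ZMod p → ZMod p) (b : ZMod p)
    (h : (ZMod p)[X]) : ℂ :=
  if ∃ a ∈ s, h.eval a = 0 then 0 else
    ZMod.stdAddChar (-(b * h.nextCoeff) - ∑ a ∈ s, c a * (h.derivative.eval a / h.eval a))

/-- The rational function on an extension `K`. -/
noncomputable def fr (p : ℕ) [Fact p.Prime] (K : Type) [Field K] [Algebra (ZMod p) K] (s : Finset (ZMod p))
    (c : ZMod p → ZMod p) (b : ZMod p) (x : K) : K :=
  algebraMap (ZMod p) K b * x + ∑ a ∈ s, algebraMap (ZMod p) K (c a) / (x - algebraMap (ZMod p) K a)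

open Classical in
/-- The points of `K` which are not poles. -/
noncomputable def pt (p : ℕ) [Fact p.Prime] (K : Type) [Field K] [Fintype K] [Algebra (ZMod p) K]
    (s : Finset (ZMod p)) : Finset K :=
  Finset.univ.filter fun x => ∀ a ∈ s, x ≠ algebraMap (ZMod p) K a

/-- The exponential sum over `K`. -/
noncomputable def kw (p : ℕ) [Fact p.Prime] (K : Type) [Field K] [Fintype K] [Algebra (ZMod p) K]
    (s : Finset (ZMod p)) (c : ZMod p → ZMod p) (b : ZMod p) : ℂ :=
  ∑ x ∈ pt p K s, ZMod.stdAddChar (Algebra.trace (ZMod p) K (fr p K s c b x))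

end Pool.Agent.Lib.WR
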