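import Pool.Agent.Lib.WR.Mi

/-! The sum over the prime powers is the exponential sum of the extension. -/

namespace Pool.Agent.Lib.WR

open Polynomial MP72e2e6

theorem tEx (h1 : StmtSuPsi.{0}) (p : ℕ) [hp : Fact p.Prime] (K : Type) [Field K] [Fintype K]
    [Algebra (ZMod p) K] (s : Finset (ZMod p)) (c : ZMod p → ZMod p) (b : ZMod p) (n : ℕ) (hn : 1 ≤ n)
    (hKn : Module.finrank (ZMod p) K = n) : psiC (ph p s c b) n = kw p K s c b := by
  classical
  have hpr : p.Prime := Fact.out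
  have hfd : FiniteDimensional (ZMod p) K := Module.Finite.of_finite
  let PP : Finset (ZMod p)[X] := n.divisors.biUnion fun d => irr (ZMod p) d
  have hmem : ∀ P, P ∈ PP ↔ P.Monic ∧ Irreducible P ∧ P.natDegree ∣ n := by
    intro P
    rw [Finset.mem_biUnion]
    constructor
    · rintro ⟨d, hd, hP⟩
      rw [irr, Finset.mem_filter, mem_mon] at hP
      obtain ⟨⟨h3, rfl⟩, h4⟩ := hP
      exact ⟨h3, h4, Nat.dvd_of_mem_divisors hd⟩
    · rintro ⟨h3, h4, h5⟩
      refine ⟨P.natDegree, Nat.mem_divisors.2 ⟨h5, by omega⟩, ?_⟩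
      rw [irr, Finset.mem_filter, mem_mon]
      exact ⟨⟨h3, rfl⟩, h4⟩
  have hdisj : (n.divisors : Set ℕ).PairwiseDisjoint fun d => irr (ZMod p) d := by
    intro d _ d' _ hdd
    rw [Function.onFun, Finset.disjoint_left]
    intro P hP hP'
    rw [irr, Finset.mem_filter, mem_mon] at hP hP'
    exact hdd (hP.1.2.symm.trans hP'.1.2)
  have hpsi : ∀ φ : (ZMod p)[X] → ℂ, psiC φ n =
      ∑ P ∈ PP, (P.natDegree : ℂ) * φ P ^ (n / P.natDegree) := by
    intro φ
    rw [psiC, Finset.sum_biUnion hdisj]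
    refine Finset.sum_congr rfl fun d _ => Finset.sum_congr rfl fun P hP => ?_
    rw [irr, Finset.mem_filter, mem_mon] at hP
    rw [hP.1.2]
  have hmaps : ∀ x ∈ (Finset.univ : Finset K), minpoly (ZMod p) x ∈ PP := by
    intro x _
    have hx : IsIntegral (ZMod p) x := IsIntegral.of_finite (ZMod p) x
    exact (hmem _).2 ⟨minpoly.monic hx, minpoly.irreducible hx, hKn ▸ minpoly.degree_dvd hx⟩
  have hle : ∀ P ∈ PP, (Finset.univ.filter fun x : K => minpoly (ZMod p) x = P).card ≤
      P.natDegree := by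
    intro P hP
    obtain ⟨hPm, hPi, _⟩ := (hmem P).1 hP
    have h3 : (Finset.univ.filter fun x : K => minpoly (ZMod p) x = P) ⊆
        (P.aroots K).toFinset := by
      intro x hx
      rw [Multiset.mem_toFinset, mem_aroots]
      refine ⟨hPi.ne_zero, ?_⟩
      rw [← (Finset.mem_filter.1 hx).2, minpoly.aeval]
    refine (Finset.card_le_card h3).trans ((Multiset.toFinset_card_le _).trans ?_)
    refine (card_roots' _).trans (le_of_eq ?_)
    exact natDegree_map _
  have hsum : ∑ P ∈ PP, (Finset.univ.filter fun x : K => minpoly (ZMod p) x = P).card =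
      ∑ P ∈ PP, P.natDegree := by
    rw [← Finset.card_eq_sum_card_fiberwise hmaps, Finset.card_univ]
    have h3 := (h1 (ZMod p) p hpr).2.1 n hn
    rw [hpsi] at h3
    have h4 : ((∑ P ∈ PP, P.natDegree : ℕ) : ℂ) = ((Nat.card (ZMod p) ^ n : ℕ) : ℂ) := by
      rw [Nat.cast_sum, Nat.cast_pow, ← h3]
      refine Finset.sum_congr rfl fun P _ => ?_
      rw [one_pow, mul_one]
    rw [Nat.cast_inj.1 h4, ← Nat.card_eq_fintype_card, ← hKn,
      Module.natCard_eq_pow_finrank (K := ZMod p)]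
  have heq : ∀ P ∈ PP, (Finset.univ.filter fun x : K => minpoly (ZMod p) x = P).card =
      P.natDegree :=
    (Finset.sum_eq_sum_iff_of_le hle).1 hsum
  have hfib : ∑ P ∈ PP, (P.natDegree : ℂ) * ph p s c b P ^ (n / P.natDegree) =
      ∑ x : K, ph p s c b (minpoly (ZMod p) x) ^ (n / (minpoly (ZMod p) x).natDegree) := by
    rw [← Finset.sum_fiberwise_of_maps_to hmaps]
    refine Finset.sum_congr rfl fun P hP => ?_
    rw [← heq P hP, Finset.sum_congr rfl fun x hx => by rw [(Finset.mem_filter.1 hx).2],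
      Finset.sum_const, nsmul_eq_mul, heq P hP]
  rw [hpsi, hfib, kw, ← Finset.sum_subset (Finset.subset_univ (pt p K s))]
  · refine Finset.sum_congr rfl fun z hz => ?_
    rw [pt, Finset.mem_filter] at hz
    obtain ⟨h5, h6⟩ := tMi p K s c b z hz.2
    have h7 : ¬ ∃ a ∈ s, (minpoly (ZMod p) z).eval a = 0 := by
      rintro ⟨a, ha, ha0⟩
      exact h5 a ha ha0
    rw [ph, if_neg h7, ← AddChar.map_nsmul_eq_pow, h6, hKn, nsmul_eq_mul]
  · intro z _ hz
    rw [pt, Finset.mem_filter] at hz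
    push_neg at hz
    obtain ⟨a, ha, hza⟩ := hz (Finset.mem_univ z)
    have h8 : (minpoly (ZMod p) z).eval a = 0 := by
      rw [hza, minpoly.eq_X_sub_C]
      simp
    have h9 : (minpoly (ZMod p) z).natDegree = 1 := by
      rw [hza, minpoly.eq_X_sub_C, natDegree_X_sub_C]
    rw [ph, if_pos ⟨a, ha, h8⟩, h9, Nat.div_one, zero_pow (by omega)]

end Pool.Agent.Lib.WR
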