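import Mathlib

/-! Newton's identities: a sequence with the recursion of an L-function which is a polynomial of degree at most
`N` comes from `N` complex numbers. -/

namespace Pool.Agent.Lib.WR

open Polynomial Finset

private theorem Re_anti (k : ℕ) (f : ℕ → ℕ → ℂ) :
    ∑ a ∈ antidiagonal k with a.1 < k, f a.1 a.2 = ∑ j ∈ Icc 1 k, f (k - j) j := by
  refine Finset.sum_nbij' (fun a => a.2) (fun j => (k - j, j)) ?_ ?_ ?_ ?_ ?_
  · rintro ⟨a, b⟩ h
    rw [mem_filter, Finset.HasAntidiagonal.mem_antidiagonal] at h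
    rw [mem_Icc]
    simp only at h ⊢
    omega
  · intro j h
    rw [mem_Icc] at h
    rw [mem_filter, Finset.HasAntidiagonal.mem_antidiagonal]
    simp only
    omega
  · rintro ⟨a, b⟩ h
    rw [mem_filter, Finset.HasAntidiagonal.mem_antidiagonal] at h
    simp only at h ⊢
    rw [Prod.mk.injEq]
    omega
  · intro j _
    rfl
  · rintro ⟨a, b⟩ h
    rw [mem_filter, Finset.HasAntidiagonal.mem_antidiagonal] at h
    simp only at h ⊢
    have e : k - b = a := by omega
    rw [e]

theorem tRe (N : ℕ) (A P : ℕ → ℂ) (hA0 : A 0 = 1) (hA : ∀ n, N < n → A n = 0)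
    (hrec : ∀ n : ℕ, (n : ℂ) * A n = ∑ k ∈ Icc 1 n, P k * A (n - k)) :
    ∃ al : Fin N → ℂ, ∑ i, al i = -A 1 ∧ ∀ n, 1 ≤ n → P n = -∑ i, al i ^ n := by
  classical
  -- the monic polynomial of degree N
  let Q : ℂ[X] := ∑ i ∈ range (N + 1), C (A i) * X ^ (N - i)
  have hQc : ∀ i, i ≤ N → Q.coeff (N - i) = A i := by
    intro i hi
    rw [finsetSum_coeff, Finset.sum_eq_single i]
    · rw [coeff_C_mul, coeff_X_pow, if_pos rfl, mul_one]
    · intro j hj hji
      rw [mem_range] at hj
      rw [coeff_C_mul, coeff_X_pow, if_neg (by omega), mul_zero]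
    · intro h
      exact absurd (mem_range.2 (by omega)) h
  have hQd : Q.natDegree ≤ N := by
    refine natDegree_sum_le_of_forall_le _ _ fun i _ => ?_
    exact (natDegree_C_mul_X_pow_le _ _).trans (Nat.sub_le _ _)
  have hQN : Q.coeff N = 1 := by
    have := hQc 0 (Nat.zero_le _)
    rwa [Nat.sub_zero, hA0] at this
  have hQdeg : Q.natDegree = N :=
    le_antisymm hQd (le_natDegree_of_ne_zero (by rw [hQN]; exact one_ne_zero))
  have hQm : Q.Monic := by
    rw [Monic, leadingCoeff, hQdeg, hQN]
  have hcard : Multiset.card Q.roots = N := by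
    rw [← hQdeg]
    exact (splits_iff_card_roots.1 (IsAlgClosed.splits Q))
  obtain ⟨l, hl⟩ : ∃ l : List ℂ, (l : Multiset ℂ) = Q.roots := Quot.exists_rep Q.roots
  have hlen : l.length = N := by
    rw [← hcard, ← hl, Multiset.coe_card]
  subst hlen
  let al : Fin l.length → ℂ := fun i => l.get i
  have hal : (Finset.univ.val.map al : Multiset ℂ) = Q.roots := by
    rw [← hl]
    have h1 := Fin.univ_val_map (l.get)
    rw [List.ofFn_get] at h1
    exact h1
  have hprod : Q = (Q.roots.map fun a => X - C a).prod :=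
    (IsAlgClosed.splits Q).eq_prod_roots_of_monic hQm
  let E : ℕ → ℂ := fun i => MvPolynomial.aeval al (MvPolynomial.esymm (Fin l.length) ℂ i)
  let p : ℕ → ℂ := fun n => ∑ i, al i ^ n
  have hp : ∀ n, MvPolynomial.aeval al (MvPolynomial.psum (Fin l.length) ℂ n) = p n := by
    intro n
    rw [MvPolynomial.psum, map_sum]
    refine Finset.sum_congr rfl fun i _ => ?_
    rw [map_pow, MvPolynomial.aeval_X]
  have hE : ∀ i, A i = (-1) ^ i * E i := by
    intro i
    rcases le_or_gt i l.length with hi | hi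
    · have h1 := hQc i hi
      have h2 := Multiset.prod_X_sub_C_coeff Q.roots (k := l.length - i) (by rw [hcard]; omega)
      rw [← hprod, h1, hcard] at h2
      have h3 : l.length - (l.length - i) = i := by omega
      rw [h3, ← hal, ← MvPolynomial.aeval_esymm_eq_multiset_esymm (Fin l.length) ℂ] at h2
      exact h2
    · rw [hA i hi]
      have h4 : MvPolynomial.esymm (Fin l.length) ℂ i = 0 := by
        rw [MvPolynomial.esymm, Finset.powersetCard_eq_empty.2 (by rw [card_univ, Fintype.card_fin]; exact hi),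
          Finset.sum_empty]
      change (0 : ℂ) = (-1) ^ i * MvPolynomial.aeval al (MvPolynomial.esymm (Fin l.length) ℂ i)
      rw [h4, map_zero, mul_zero]
  have hNewton : ∀ k : ℕ, (k : ℂ) * A k = ∑ j ∈ Icc 1 k, -p j * A (k - j) := by
    intro k
    have h1 := congrArg (MvPolynomial.aeval al) (MvPolynomial.mul_esymm_eq_sum (Fin l.length) ℂ k)
    rw [map_mul, map_natCast, map_mul, map_pow, map_neg, map_one, map_sum] at h1
    have h2 : ∑ a ∈ antidiagonal k with a.1 < k, MvPolynomial.aeval al
        ((-1) ^ a.1 * MvPolynomial.esymm (Fin l.length) ℂ a.1 * MvPolynomial.psum (Fin l.length) ℂ a.2) =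
        ∑ j ∈ Icc 1 k, A (k - j) * p j := by
      rw [← Re_anti k fun a b => A a * p b]
      refine Finset.sum_congr rfl fun a _ => ?_
      rw [map_mul, map_mul, map_pow, map_neg, map_one, hp, hE]
    rw [h2] at h1
    change (k : ℂ) * E k = _ at h1
    rw [hE k]
    have h3 : (-1 : ℂ) ^ k * (-1) ^ (k + 1) = -1 := by
      rw [← pow_add, show k + (k + 1) = 2 * k + 1 by ring, pow_succ, pow_mul]
      norm_num
    calc (k : ℂ) * ((-1) ^ k * E k) = (-1) ^ k * ((k : ℂ) * E k) := by ring
      _ = (-1 : ℂ) ^ k * (-1) ^ (k + 1) * ∑ j ∈ Icc 1 k, A (k - j) * p j := by rw [h1]; ring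
      _ = ∑ j ∈ Icc 1 k, -p j * A (k - j) := by
        rw [h3, neg_one_mul, ← Finset.sum_neg_distrib]
        exact Finset.sum_congr rfl fun j _ => by ring
  have hP : ∀ n, 1 ≤ n → P n = -p n := by
    intro n
    induction n using Nat.strong_induction_on with
    | _ n ih =>
      intro hn
      have h1 := hrec n
      rw [hNewton n] at h1
      have h2 : Icc 1 n = insert n (Icc 1 (n - 1)) := by
        ext j
        rw [mem_insert, mem_Icc, mem_Icc]
        omega
      have h3 : n ∉ Icc 1 (n - 1) := by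
        rw [mem_Icc]
        omega
      rw [h2, Finset.sum_insert h3, Finset.sum_insert h3, Nat.sub_self, hA0, mul_one, mul_one] at h1
      have h4 : ∑ j ∈ Icc 1 (n - 1), -p j * A (n - j) = ∑ j ∈ Icc 1 (n - 1), P j * A (n - j) := by
        refine Finset.sum_congr rfl fun j hj => ?_
        rw [mem_Icc] at hj
        rw [ih j (by omega) hj.1]
      rw [h4] at h1
      exact (add_right_cancel h1).symm
  refine ⟨al, ?_, hP⟩
  have h1 := hrec 1
  rw [Nat.cast_one, one_mul, Icc_self, Finset.sum_singleton, Nat.sub_self, hA0, mul_one, hP 1 le_rfl] at h1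
  rw [h1, neg_neg]
  simp only [p, pow_one]

end Pool.Agent.Lib.WR
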