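import Pool.Agent.Lib.WR.Av
import Pool.Agent.Lib.WR.Ex
import Pool.Agent.Lib.WR.Re
import Pool.Agent.Lib.WR.Ct
import Pool.Agent.Lib.TN.Kps
import Pool.Agent.Lib.TN.Kas

/-! Weil's bound for a rational function with simple poles, one of them at infinity. -/

namespace Pool.Agent.Lib.WR

open Polynomial MP72e2e6 Pool.Agent.Lib.TN

theorem tMa (h0 : StmtSuPsi.{0}) (p : ℕ) [hp : Fact p.Prime] (s : Finset (ZMod p))
    (c : ZMod p → ZMod p) (b : ZMod p) (hb : b ≠ 0) :
    ‖∑ z ∈ Finset.univ \ s, (ZMod.stdAddChar (b * z + ∑ a ∈ s, c a / (z - a)) : ℂ)‖ ≤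
      2 * s.card * Real.sqrt p := by
  classical
  have hex : ∀ l : ZMod p, ∃ al : Fin (2 * s.card) → ℂ, l ≠ 0 →
      (∑ i, al i = -avC (ph p s (fun a => l * c a) (l * b)) 1 ∧
      ∀ n, 1 ≤ n → psiC (ph p s (fun a => l * c a) (l * b)) n = -∑ i, al i ^ n) := by
    intro l
    by_cases hl : l = 0
    · exact ⟨0, fun h => absurd hl h⟩
    · have hlb : l * b ≠ 0 := mul_ne_zero hl hb
      obtain ⟨al, h1, h2⟩ := tRe (2 * s.card) (avC (ph p s (fun a => l * c a) (l * b)))
        (psiC (ph p s (fun a => l * c a) (l * b))) (avC_zero p s _ _)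
        (fun n hn => avC_large p s _ _ hlb n hn)
        ((h0 (ZMod p) p hp.out).1 _ (tCh p s _ _))
      exact ⟨al, fun _ => ⟨h1, h2⟩⟩
  choose al hal using hex
  have hp0 : (0 : ℝ) < p := by exact_mod_cast hp.out.pos
  have key := tKps (ZMod p × Fin (2 * s.card)) ((Finset.univ.erase (0 : ZMod p)) ×ˢ Finset.univ)
    (fun q => al q.1 q.2 ^ 2) ((p ^ 2 * (3 * s.card + 3) : ℕ) : ℝ) (p : ℝ) (s.card + 3) hp0 (by
      intro m hm
      have hm1 : 1 ≤ m := by omega
      have e1 : ∑ i ∈ (Finset.univ.erase (0 : ZMod p)) ×ˢ (Finset.univ : Finset (Fin (2 * s.card))),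
          (al i.1 i.2 ^ 2) ^ m = -∑ l ∈ Finset.univ.erase (0 : ZMod p),
            psiC (ph p s (fun a => l * c a) (l * b)) (2 * m) := by
        rw [Finset.sum_product, ← Finset.sum_neg_distrib]
        refine Finset.sum_congr rfl fun l hl => ?_
        rw [Finset.mem_erase] at hl
        rw [(hal l hl.1).2 (2 * m) (by omega), neg_neg]
        exact Finset.sum_congr rfl fun i _ => by rw [← pow_mul]
      letI : Fintype (GaloisField p (2 * m)) := Fintype.ofFinite _
      have hK : Module.finrank (ZMod p) (GaloisField p (2 * m)) = 2 * m :=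
        GaloisField.finrank p (by omega)
      have e2 : ∑ l ∈ Finset.univ.erase (0 : ZMod p),
            psiC (ph p s (fun a => l * c a) (l * b)) (2 * m) =
          ∑ l ∈ Finset.univ.erase (0 : ZMod p), kw p (GaloisField p (2 * m)) s
            (fun a => l * c a) (l * b) := by
        refine Finset.sum_congr rfl fun l _ => ?_
        exact tEx h0 p (GaloisField p (2 * m)) s _ _ (2 * m) (by omega) hK
      rw [e1, norm_neg, e2]
      refine tCt p (GaloisField p (2 * m)) m hm1 hK s c b hb ?_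
      calc s.card + 3 ≤ m := hm
        _ ≤ 2 ^ m := Nat.lt_two_pow_self.le
        _ ≤ p ^ m := Nat.pow_le_pow_left hp.out.two_le _)
  have h1 : ∀ i, ‖al 1 i‖ ≤ Real.sqrt p := by
    intro i
    have h2 := key (1, i) (by simp)
    simp only [norm_pow] at h2
    exact Real.le_sqrt_of_sq_le h2
  have h3 := (hal 1 one_ne_zero).1
  have h4 : (fun a => (1 : ZMod p) * c a) = c := funext fun a => one_mul _
  rw [h4, one_mul, avC_one] at h3
  rw [← norm_neg, ← h3]
  calc ‖∑ i, al 1 i‖ ≤ ∑ i, ‖al 1 i‖ := norm_sum_le _ _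
    _ ≤ ∑ _i : Fin (2 * s.card), Real.sqrt p := Finset.sum_le_sum fun i _ => h1 i
    _ = 2 * s.card * Real.sqrt p := by
      rw [Finset.sum_const, Finset.card_univ, Fintype.card_fin, nsmul_eq_mul]
      push_cast
      ring

end Pool.Agent.Lib.WR
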