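import Pool.Agent.Lib.WR.Defs
import Pool.Agent.Lib.TN.Kmi

/-! Traces of the values of the rational function and the minimal polynomial. -/

namespace Pool.Agent.Lib.WR

open Polynomial MP72e2e6 Pool.Agent.Lib.TN

private theorem Mi_tr (p : ℕ) [Fact p.Prime] (K : Type) [Field K] [Fintype K] [Algebra (ZMod p) K]
    (w : K) (hw : w ≠ 0) : Algebra.trace (ZMod p) K w =
      ((Module.finrank (ZMod p) K / (minpoly (ZMod p) w).natDegree : ℕ) : ZMod p) *
        (-(minpoly (ZMod p) w).nextCoeff) := by
  have h := (tKmi p K 0 w hw).2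
  rw [map_zero, zero_div, add_zero, zero_mul, sub_zero] at h
  exact h

private theorem Mi_inv (p : ℕ) [Fact p.Prime] (K : Type) [Field K] [Fintype K] [Algebra (ZMod p) K]
    (c : ZMod p) (w : K) (hw : w ≠ 0) : Algebra.trace (ZMod p) K (algebraMap (ZMod p) K c / w) =
      ((Module.finrank (ZMod p) K / (minpoly (ZMod p) w).natDegree : ℕ) : ZMod p) *
        (-(c * ((minpoly (ZMod p) w).coeff 1 / (minpoly (ZMod p) w).coeff 0))) := by
  have h := (tKmi p K c w hw).2
  rw [map_add, Mi_tr p K w hw] at h
  linear_combination h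

theorem tMi (p : ℕ) [Fact p.Prime] (K : Type) [Field K] [Fintype K] [Algebra (ZMod p) K]
    (s : Finset (ZMod p)) (c : ZMod p → ZMod p) (b : ZMod p) (z : K)
    (hz : ∀ a ∈ s, z ≠ algebraMap (ZMod p) K a) :
    (∀ a ∈ s, (minpoly (ZMod p) z).eval a ≠ 0) ∧ Algebra.trace (ZMod p) K (fr p K s c b z) =
      ((Module.finrank (ZMod p) K / (minpoly (ZMod p) z).natDegree : ℕ) : ZMod p) *
        (-(b * (minpoly (ZMod p) z).nextCoeff) - ∑ a ∈ s, c a *
          ((derivative (minpoly (ZMod p) z)).eval a / (minpoly (ZMod p) z).eval a)) := by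
  haveI : FiniteDimensional (ZMod p) K := Module.Finite.of_finite
  have hzi : IsIntegral (ZMod p) z := IsIntegral.of_finite (ZMod p) z
  have hm : ∀ a : ZMod p, minpoly (ZMod p) (z - algebraMap (ZMod p) K a) =
      (minpoly (ZMod p) z).comp (X + C a) := fun a => minpoly.sub_algebraMap z a
  have hd : ∀ a : ZMod p, (minpoly (ZMod p) (z - algebraMap (ZMod p) K a)).natDegree =
      (minpoly (ZMod p) z).natDegree := by
    intro a
    rw [hm a, natDegree_comp, natDegree_X_add_C, mul_one]
  have h0 : ∀ a : ZMod p, (minpoly (ZMod p) (z - algebraMap (ZMod p) K a)).coeff 0 =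
      (minpoly (ZMod p) z).eval a := by
    intro a
    rw [hm a, coeff_zero_eq_eval_zero, eval_comp]
    simp
  have h1 : ∀ a : ZMod p, (minpoly (ZMod p) (z - algebraMap (ZMod p) K a)).coeff 1 =
      (derivative (minpoly (ZMod p) z)).eval a := by
    intro a
    have e : ∀ Q : (ZMod p)[X], Q.coeff 1 = (derivative Q).eval 0 := by
      intro Q
      rw [← coeff_zero_eq_eval_zero, coeff_derivative]
      simp
    rw [hm a, e, derivative_comp]
    simp
  refine ⟨?_, ?_⟩
  · intro a ha
    rw [← h0 a]
    have hza : z - algebraMap (ZMod p) K a ≠ 0 := sub_ne_zero.2 (hz a ha)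
    exact minpoly.coeff_zero_ne_zero (IsIntegral.of_finite (ZMod p) _) hza
  · unfold fr
    rw [map_add, map_sum]
    have e1 : Algebra.trace (ZMod p) K (algebraMap (ZMod p) K b * z) =
        ((Module.finrank (ZMod p) K / (minpoly (ZMod p) z).natDegree : ℕ) : ZMod p) *
        (-(b * (minpoly (ZMod p) z).nextCoeff)) := by
      rw [← Algebra.smul_def, map_smul, smul_eq_mul]
      by_cases hz0 : z = 0
      · subst hz0
        have hX : (X : (ZMod p)[X]).nextCoeff = 0 := by
          rw [nextCoeff_of_natDegree_pos (by rw [natDegree_X]; norm_num), natDegree_X]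
          simp
        rw [map_zero, minpoly.zero, hX]
        simp
      · rw [Mi_tr p K z hz0]
        ring
    have e2 : ∑ a ∈ s, Algebra.trace (ZMod p) K (algebraMap (ZMod p) K (c a) /
        (z - algebraMap (ZMod p) K a)) =
        ((Module.finrank (ZMod p) K / (minpoly (ZMod p) z).natDegree : ℕ) : ZMod p) *
        (-∑ a ∈ s, c a *
          ((derivative (minpoly (ZMod p) z)).eval a / (minpoly (ZMod p) z).eval a)) := by
      rw [← Finset.sum_neg_distrib, Finset.mul_sum]
      refine Finset.sum_congr rfl fun a ha => ?_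
      rw [Mi_inv p K (c a) _ (sub_ne_zero.2 (hz a ha)), hd a, h0 a, h1 a]
    rw [e1, e2]
    ring

end Pool.Agent.Lib.WR
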