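import Pool.Agent.Lib.WR.Ma

/-! Weil's bound for all rational functions with simple poles. -/

namespace Pool.Agent.Lib.WR

open Polynomial MP72e2e6 Pool.Agent.Lib.TN

private theorem Mo_term {F : Type} [Field F] (y a a0 cc : F) (hy : y ≠ 0) (ha : a ≠ a0)
    (h : y ≠ (a - a0)⁻¹) : cc / (a0 + y⁻¹ - a) =
      -(cc * (a - a0)⁻¹) + (-((a - a0)⁻¹) ^ 2 * cc) / (y - (a - a0)⁻¹) := by
  have h1 : a - a0 ≠ 0 := sub_ne_zero.2 ha
  have h2 : y - (a - a0)⁻¹ ≠ 0 := sub_ne_zero.2 h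
  have h3 : y * (a - a0) - 1 ≠ 0 := by
    intro h4
    apply h2
    rw [sub_eq_zero]
    exact eq_inv_of_mul_eq_one_left (sub_eq_zero.1 h4)
  have h4 : a0 + y⁻¹ - a ≠ 0 := by
    intro h5
    apply h3
    have h6 : y * (a0 + y⁻¹ - a) = 1 - y * (a - a0) := by
      field_simp
      ring
    rw [h5, mul_zero] at h6
    linear_combination h6
  rw [div_eq_iff h4]
  have h7 : a0 + y⁻¹ - a = -(y * (a - a0) - 1) / y := by
    field_simp
    ring
  have h8 : y - (a - a0)⁻¹ = (y * (a - a0) - 1) / (a - a0) := by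
    field_simp
  rw [h7, h8]
  have gen : ∀ y e cc D : F, y ≠ 0 → e ≠ 0 → D ≠ 0 → y * e - 1 = D →
      cc = (-(cc * e⁻¹) + (-e⁻¹ ^ 2 * cc) / (D / e)) * (-D / y) := by
    intro y e cc D hy he hD h
    have h9 : y = (D + 1) / e := by
      rw [eq_div_iff he]
      linear_combination h
    have h10 : D + 1 ≠ 0 := by
      intro h11
      apply hy
      rw [h9, h11, zero_div]
    rw [h9]
    field_simp
    ring
  exact gen y (a - a0) cc _ hy h1 h3 rfl

theorem tMo (h0 : StmtSuPsi.{0}) (p : ℕ) [hp : Fact p.Prime] (s : Finset (ZMod p))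
    (c : ZMod p → ZMod p) (a0 : ZMod p) (ha0 : a0 ∈ s) (hc : c a0 ≠ 0) :
    ‖∑ z ∈ Finset.univ \ s, (ZMod.stdAddChar (∑ a ∈ s, c a / (z - a)) : ℂ)‖ ≤
      2 * s.card * Real.sqrt p := by
  classical
  let s' : Finset (ZMod p) := (s.erase a0).image fun a => (a - a0)⁻¹
  let c' : ZMod p → ZMod p := fun w => -w ^ 2 * c (a0 + w⁻¹)
  have hinj : Set.InjOn (fun a : ZMod p => (a - a0)⁻¹) (s.erase a0 : Finset (ZMod p)) := by
    intro a _ a' _ h
    have h1 : a - a0 = a' - a0 := inv_injective h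
    exact sub_left_injective h1
  have hs'card : s'.card + 1 = s.card := by
    rw [Finset.card_image_of_injOn hinj, Finset.card_erase_add_one ha0]
  have hs'0 : (0 : ZMod p) ∉ s' := by
    intro h
    obtain ⟨a, ha, h1⟩ := Finset.mem_image.1 h
    rw [inv_eq_zero, sub_eq_zero] at h1
    exact (Finset.mem_erase.1 ha).1 h1
  let K0 : ZMod p := ∑ a ∈ s.erase a0, -(c a * (a - a0)⁻¹)
  have hval : ∀ y : ZMod p, y ≠ 0 → y ∉ s' → ∑ a ∈ s, c a / (a0 + y⁻¹ - a) =
      K0 + (c a0 * y + ∑ w ∈ s', c' w / (y - w)) := by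
    intro y hy hys
    rw [← Finset.add_sum_erase s _ ha0]
    have h1 : c a0 / (a0 + y⁻¹ - a0) = c a0 * y := by
      rw [add_sub_cancel_left, div_inv_eq_mul]
    have h2 : ∑ a ∈ s.erase a0, c a / (a0 + y⁻¹ - a) = K0 + ∑ w ∈ s', c' w / (y - w) := by
      rw [Finset.sum_image hinj, ← Finset.sum_add_distrib]
      refine Finset.sum_congr rfl fun a ha => ?_
      rw [Mo_term y a a0 (c a) hy (Finset.mem_erase.1 ha).1
        (fun h => hys (Finset.mem_image.2 ⟨a, ha, h.symm⟩))]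
      change _ = _ + (-((a - a0)⁻¹) ^ 2 * c (a0 + ((a - a0)⁻¹)⁻¹)) / _
      rw [inv_inv, add_sub_cancel]
    rw [h1, h2]
    ring
  have hbij : ∑ z ∈ Finset.univ \ s, (ZMod.stdAddChar (∑ a ∈ s, c a / (z - a)) : ℂ) =
      ∑ y ∈ (Finset.univ \ s').erase 0, (ZMod.stdAddChar (K0 + (c a0 * y + ∑ w ∈ s', c' w / (y - w))) : ℂ) := by
    refine Finset.sum_nbij' (fun z => (z - a0)⁻¹) (fun y => a0 + y⁻¹) ?_ ?_ ?_ ?_ ?_
    · intro z hz
      have hzs : z ∉ s := (Finset.mem_sdiff.1 hz).2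
      have hz0 : z - a0 ≠ 0 := sub_ne_zero.2 fun h => hzs (h ▸ ha0)
      rw [Finset.mem_erase, Finset.mem_sdiff]
      refine ⟨inv_ne_zero hz0, Finset.mem_univ _, ?_⟩
      intro h
      obtain ⟨a, ha, h1⟩ := Finset.mem_image.1 h
      have h2 : a = z := sub_left_injective (inv_injective h1)
      exact hzs (h2 ▸ (Finset.mem_erase.1 ha).2)
    · intro y hy
      rw [Finset.mem_erase, Finset.mem_sdiff] at hy
      rw [Finset.mem_sdiff]
      refine ⟨Finset.mem_univ _, ?_⟩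
      intro h
      have h1 : a0 + y⁻¹ ≠ a0 := by
        intro h2
        have h3 : y⁻¹ = 0 := by linear_combination h2
        exact hy.1 (inv_eq_zero.1 h3)
      apply hy.2.2
      refine Finset.mem_image.2 ⟨a0 + y⁻¹, Finset.mem_erase.2 ⟨h1, h⟩, ?_⟩
      rw [add_sub_cancel_left, inv_inv]
    · intro z _
      rw [inv_inv, add_sub_cancel]
    · intro y _
      rw [add_sub_cancel_left, inv_inv]
    · intro z hz
      have hzs : z ∉ s := (Finset.mem_sdiff.1 hz).2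
      have hz0 : z - a0 ≠ 0 := sub_ne_zero.2 fun h => hzs (h ▸ ha0)
      have hys : (z - a0)⁻¹ ∉ s' := by
        intro h
        obtain ⟨a, ha, h1⟩ := Finset.mem_image.1 h
        have h2 : a = z := sub_left_injective (inv_injective h1)
        exact hzs (h2 ▸ (Finset.mem_erase.1 ha).2)
      rw [← hval _ (inv_ne_zero hz0) hys, inv_inv, add_sub_cancel]
  have hmem : (0 : ZMod p) ∈ Finset.univ \ s' := Finset.mem_sdiff.2 ⟨Finset.mem_univ _, hs'0⟩
  have hfull := tMa h0 p s' c' (c a0) hc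
  have hsplit := Finset.add_sum_erase (Finset.univ \ s')
    (fun y => (ZMod.stdAddChar (c a0 * y + ∑ w ∈ s', c' w / (y - w)) : ℂ)) hmem
  have hK : ∑ y ∈ (Finset.univ \ s').erase 0, (ZMod.stdAddChar (K0 + (c a0 * y + ∑ w ∈ s', c' w / (y - w))) : ℂ) =
      ZMod.stdAddChar K0 * ∑ y ∈ (Finset.univ \ s').erase 0,
        (ZMod.stdAddChar (c a0 * y + ∑ w ∈ s', c' w / (y - w)) : ℂ) := by
    rw [Finset.mul_sum]
    exact Finset.sum_congr rfl fun y _ => AddChar.map_add_eq_mul _ _ _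
  have hp1 : (1 : ℝ) ≤ Real.sqrt p := by
    rw [Real.one_le_sqrt]
    exact_mod_cast hp.out.one_lt.le
  rw [hbij, hK, norm_mul, AddChar.norm_apply, one_mul]
  have h1 : ∑ y ∈ (Finset.univ \ s').erase 0,
        (ZMod.stdAddChar (c a0 * y + ∑ w ∈ s', c' w / (y - w)) : ℂ) =
      ∑ y ∈ Finset.univ \ s', (ZMod.stdAddChar (c a0 * y + ∑ w ∈ s', c' w / (y - w)) : ℂ) -
        ZMod.stdAddChar (c a0 * 0 + ∑ w ∈ s', c' w / (0 - w)) := by
    rw [← hsplit]
    ring
  rw [h1]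
  refine (norm_sub_le _ _).trans ?_
  rw [AddChar.norm_apply]
  have h2 : (s.card : ℝ) = s'.card + 1 := by exact_mod_cast hs'card.symm
  rw [h2]
  nlinarith

/-- THEOREM WR. Weil's bound for the rational functions `b z + ∑ c_a / (z - a)` over `ZMod p`. -/
theorem tWR (h0 : StmtSuPsi.{0}) (p : ℕ) [hp : Fact p.Prime] (s : Finset (ZMod p))
    (c : ZMod p → ZMod p) (b : ZMod p) (h : b ≠ 0 ∨ ∃ a ∈ s, c a ≠ 0) :
    ‖∑ z ∈ Finset.univ \ s, (ZMod.stdAddChar (b * z + ∑ a ∈ s, c a / (z - a)) : ℂ)‖ ≤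
      2 * s.card * Real.sqrt p := by
  by_cases hb : b = 0
  · obtain ⟨a0, ha0, hc⟩ : ∃ a ∈ s, c a ≠ 0 := h.resolve_left fun h => h hb
    have h1 := tMo h0 p s c a0 ha0 hc
    simpa only [hb, zero_mul, zero_add] using h1
  · exact tMa h0 p s c b hb

end Pool.Agent.Lib.WR
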